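import Pool.Agent.Lib.MP_862e0f_al.Defs

/-!
# Regular Fréchet-Lie groups

Curves on the unit interval, the locally convex space `C^∞([0, 1], E)`, left logarithmic
derivatives, regular Lie groups, Fréchet-Lie groups, finite-dimensional Lie groups.
-/

set_option autoImplicit false

namespace Pool.Agent.Lib.MP_862e0f_al

open Filter Topology Set unitInterval

universe u v w x

section curves

variable {E : Type v} [AddCommGroup E] [Module ℝ E] [TopologicalSpace E]

/-- The curve `c : [0, 1] → E` has the derivative `w` at `t` (one-sided if `t = 0, 1`). -/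
def HasIDeriv (c : I → E) (t : I) (w : E) : Prop :=
  Tendsto (fun s : I => ((s : ℝ) - t)⁻¹ • (c s - c t)) (𝓝[≠] t) (𝓝 w)

/-- The curve `c : [0, 1] → E` is of class `C^k` on the (relatively open) set `S ⊆ [0, 1]`. -/
def CurveCk : ℕ → (I → E) → Set I → Prop
  | 0, c, S => ContinuousOn c S
  | k + 1, c, S => ContinuousOn c S ∧ ∃ c' : I → E, (∀ t ∈ S, HasIDeriv c t (c' t)) ∧
      CurveCk k c' S

variable [IsTopologicalAddGroup E] [ContinuousSMul ℝ E]

omit [IsTopologicalAddGroup E] [ContinuousSMul ℝ E] in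
theorem HasIDeriv.zero (t : I) : HasIDeriv (fun _ => (0 : E)) t 0 := by
  unfold HasIDeriv
  simp only [sub_self, smul_zero]
  exact tendsto_const_nhds

omit [ContinuousSMul ℝ E] in
theorem HasIDeriv.add {c d : I → E} {t : I} {v w : E} (hc : HasIDeriv c t v)
    (hd : HasIDeriv d t w) : HasIDeriv (fun s => c s + d s) t (v + w) := by
  refine (Tendsto.add hc hd).congr fun s => ?_
  rw [← smul_add, add_sub_add_comm]

omit [IsTopologicalAddGroup E] in
theorem HasIDeriv.smul {c : I → E} {t : I} {v : E} (a : ℝ) (hc : HasIDeriv c t v) :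
    HasIDeriv (fun s => a • c s) t (a • v) := by
  refine (Tendsto.const_smul hc a).congr fun s => ?_
  rw [← smul_sub, smul_comm]

variable (E) in
/-- The space `C^∞([0, 1], E)` of smooth curves (together with all their derivatives
`ξ 0 = ξ, ξ 1 = ξ', …`), with the topology of uniform convergence of all derivatives. -/
def SmoothCurve : Submodule ℝ (ℕ → C(I, E)) where
  carrier := {ξ | ∀ (k : ℕ) (t : I), HasIDeriv (ξ k) t (ξ (k + 1) t)}
  zero_mem' := fun _ t => HasIDeriv.zero t
  add_mem' := fun ha hb k t => (ha k t).add (hb k t)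
  smul_mem' := fun a _ hc k t => (hc k t).smul a

variable (E) in
/-- The locally convex space `C^∞([0, 1], E)` of smooth curves (together with all their
derivatives `ξ 0 = ξ, ξ 1 = ξ', …`), with the vector space structure of `SmoothCurve E` and the
topology of uniform convergence of all derivatives. -/
def CurveSpace : Type v := {ξ : ℕ → C(I, E) // ∀ (k : ℕ) (t : I), HasIDeriv (ξ k) t (ξ (k + 1) t)}

instance : AddCommGroup (CurveSpace E) := (SmoothCurve E).addCommGroup
instance : Module ℝ (CurveSpace E) := (SmoothCurve E).module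
instance : TopologicalSpace (CurveSpace E) :=
  TopologicalSpace.induced (fun ξ k => ξ.1 k) Pi.topologicalSpace

/-- the value `ξ(t)` of the smooth curve `ξ` at `t` -/
def CurveSpace.val (ξ : CurveSpace E) (t : I) : E := ξ.1 0 t

end curves

section groups

variable (E : Type v) [AddCommGroup E] [Module ℝ E] [TopologicalSpace E]
  {G : Type u} [Group G] [TopologicalSpace G] [ChartedSpace E G]

/-- `γ : [0, 1] → G` is a smooth curve: it is continuous and smooth in the charts. -/
def IsSmoothCurve (γ : I → G) : Prop :=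
  Continuous γ ∧ ∀ ψ ∈ atlas E G, ∀ k : ℕ, CurveCk k (fun t => ψ (γ t)) {t | γ t ∈ ψ.source}

/-- `γ'(t) = γ(t) · ξ`, where `ξ` is an element of the Lie algebra, that is, of the tangent space
at `1`, identified with the model space `E` by means of the chart at `1`: in each chart `ψ` at
`γ(t)`, the derivative of `γ` at `t` is the image of `ξ` under the derivative of the left
translation by `γ(t)`. -/
def HasLeftLogDeriv (γ : I → G) (t : I) (ξ : E) : Prop :=
  ∀ ψ ∈ atlas E G, γ t ∈ ψ.source → ∃ w : E, HasIDeriv (fun s => ψ (γ s)) t w ∧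
    HasDirDeriv (fun z : E => ψ (γ t * (chartAt E (1 : G)).symm z)) (chartAt E (1 : G) 1) ξ w

end groups

/-- `G` is a finite-dimensional Lie group. -/
def LieGrp.IsFiniteDim (G : LieGrp.{u, v}) : Prop := FiniteDimensional ℝ G.model

/-- `G` is a Fréchet-Lie group: its (locally convex) model space is metrizable and complete. -/
def LieGrp.IsFrechet (G : LieGrp.{u, v}) : Prop :=
  TopologicalSpace.MetrizableSpace G.model ∧ ∀ a : ℕ → G.model,
    (∀ W ∈ 𝓝 (0 : G.model), ∃ N : ℕ, ∀ m ≥ N, ∀ n ≥ N, a m - a n ∈ W) →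
      ∃ b : G.model, Tendsto a atTop (𝓝 b)

/-- `G` is regular: each smooth curve `ξ : [0, 1] → 𝔤` has a smooth left evolution
`γ : [0, 1] → G`, `γ(0) = 1`, `γ' = γ · ξ`, and `γ(1)` depends smoothly on `ξ ∈ C^∞([0, 1], 𝔤)`. -/
def LieGrp.IsRegular (G : LieGrp.{u, v}) : Prop :=
  ∃ evol : CurveSpace G.model → I → G.carrier,
    (∀ ξ, IsSmoothCurve G.model (evol ξ) ∧ evol ξ 0 = 1 ∧
      ∀ t : I, HasLeftLogDeriv G.model (evol ξ) t (ξ.val t)) ∧
    SmoothMap (CurveSpace G.model) G.model fun ξ => evol ξ 1

/-- regularity, in terms of `SmoothCurve` -/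
def LieGrp.IsRegularAux (G : LieGrp.{u, v}) : Prop :=
  ∃ evol : SmoothCurve G.model → I → G.carrier,
    (∀ ξ : SmoothCurve G.model, IsSmoothCurve G.model (evol ξ) ∧ evol ξ 0 = 1 ∧
      ∀ t : I, HasLeftLogDeriv G.model (evol ξ) t (ξ.1 0 t)) ∧
    SmoothMap (SmoothCurve G.model) G.model fun ξ : SmoothCurve G.model => evol ξ 1

theorem LieGrp.IsRegularAux.isRegular {G : LieGrp.{u, v}} (h : G.IsRegularAux) : G.IsRegular := h

end Pool.Agent.Lib.MP_862e0f_al
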