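import Pool.Agent.Lib.MP_862e0f_P.Mg.G001

/-!
# Bastiani calculus with a topological parameter: the chain rule

Induction on `k` (all types, functions, sets generalised). The derivative of
`(t, x) ↦ g t (f t x)` is `dg t (f t x, df t (x, v))`: use `C1.quotF` (or `parC1_quot`) for
`g t` at `f t x` with `a` constant and `b s = s⁻¹ • (f t (x + s • v) - f t x)`. For the inductive
step apply the induction hypothesis to `dg` and to the tangent map `(f ∘ fst, df)`
(`ParCk.of_succ`, `ParCk.comp_right`, `ParCk.prodMk`).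
-/

set_option autoImplicit false
set_option linter.unusedSectionVars false

namespace Pool.Agent.Lib.MP_862e0f_al

open Filter Topology Set unitInterval

universe u v w x y z

theorem parCk_comp_aux {T : Type y} [TopologicalSpace T] (k : ℕ) :
    ∀ (E : Type u) (F : Type v) (G : Type w)
      [AddCommGroup E] [Module ℝ E] [TopologicalSpace E] [IsTopologicalAddGroup E]
      [ContinuousSMul ℝ E]
      [AddCommGroup F] [Module ℝ F] [TopologicalSpace F] [IsTopologicalAddGroup F]
      [ContinuousSMul ℝ F]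
      [AddCommGroup G] [Module ℝ G] [TopologicalSpace G] [IsTopologicalAddGroup G]
      [ContinuousSMul ℝ G] [LocallyConvexSpace ℝ G]
      (g : T → F → G) (W : Set (T × F)) (f : T → E → F) (U : Set (T × E)),
      ParCk T k F G g W → IsOpen W → ParCk T k E F f U →
      (∀ p ∈ U, (p.1, f p.1 p.2) ∈ W) → ParCk T k E G (fun t x => g t (f t x)) U := by
  induction k with
  | zero =>
    intro E F G _ _ _ _ _ _ _ _ _ _ _ _ _ _ _ _ g W f U hg hW hf hm
    have hc : ContinuousOn (fun p : T × E => (p.1, f p.1 p.2)) U :=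
      continuousOn_fst.prodMk hf
    exact ContinuousOn.comp hg hc hm
  | succ k ih =>
    intro E F G _ _ _ _ _ _ _ _ _ _ _ _ _ _ _ _ g W f U hg hW hf hm
    have hf1 := hf.of_succ.comp_right (ContinuousLinearMap.fst ℝ E E)
    obtain ⟨hgc, dg, hgd, hdg⟩ := hg
    obtain ⟨hfc, df, hfd, hdf⟩ := hf
    have hc : ContinuousOn (fun p : T × E => (p.1, f p.1 p.2)) U :=
      continuousOn_fst.prodMk hfc
    refine ⟨ContinuousOn.comp hgc hc hm, fun t q => dg t (f t q.1, df t q), fun p hp v => ?_, ?_⟩
    · have h1 := parC1_quot hW hgd hdg.continuousOn (t₀ := p.1) (x₀ := f p.1 p.2)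
        (v₀ := df p.1 (p.2, v)) (hm p hp)
      have h2 : Tendsto (fun s : ℝ => (p.1, s, f p.1 p.2,
          s⁻¹ • (f p.1 (p.2 + s • v) - f p.1 p.2))) (𝓝[≠] (0 : ℝ))
          (𝓝 p.1 ×ˢ (𝓝[≠] (0 : ℝ) ×ˢ (𝓝 (f p.1 p.2) ×ˢ 𝓝 (df p.1 (p.2, v))))) :=
        tendsto_const_nhds.prodMk (tendsto_id.prodMk (tendsto_const_nhds.prodMk (hfd p hp v)))
      have h3 := h1.comp h2
      refine h3.congr' ?_
      filter_upwards [self_mem_nhdsWithin] with s hs
      have hs' : s ≠ 0 := hs
      simp only [Function.comp_apply]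
      rw [smul_inv_smul₀ hs', add_sub_cancel]
    · refine ih (E × E) (F × F) G dg {q | (q.1, q.2.1) ∈ W} (fun t q => (f t q.1, df t q))
        {q | (q.1, q.2.1) ∈ U} hdg ?_ (ParCk.prodMk hf1 hdf) ?_
      · exact hW.preimage (continuous_fst.prodMk (continuous_fst.comp continuous_snd))
      · intro q hq
        exact hm (q.1, q.2.1) hq

variable {T : Type y} [TopologicalSpace T] {E : Type u} {F : Type v} {G : Type w}
  [AddCommGroup E] [Module ℝ E] [TopologicalSpace E] [IsTopologicalAddGroup E] [ContinuousSMul ℝ E]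
  [AddCommGroup F] [Module ℝ F] [TopologicalSpace F] [IsTopologicalAddGroup F] [ContinuousSMul ℝ F]
  [AddCommGroup G] [Module ℝ G] [TopologicalSpace G] [IsTopologicalAddGroup G] [ContinuousSMul ℝ G]

/-- the chain rule -/
theorem ParCk.comp [LocallyConvexSpace ℝ G] {k : ℕ} {g : T → F → G} {W : Set (T × F)}
    (hg : ParCk T k F G g W) (hW : IsOpen W) {f : T → E → F} {U : Set (T × E)}
    (hf : ParCk T k E F f U) (hm : ∀ p ∈ U, (p.1, f p.1 p.2) ∈ W) :
    ParCk T k E G (fun t x => g t (f t x)) U := by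
  exact parCk_comp_aux k E F G g W f U hg hW hf hm

end Pool.Agent.Lib.MP_862e0f_al
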