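import Pool.Agent.Lib.MP_862e0f_P.Mg.G002
import Pool.Agent.Lib.MP_862e0f_P.Mg.G004
import Pool.Agent.Lib.MP_862e0f_P.Mg.G003

/-!
# Epimorphisms of finite-dimensional Lie groups in the category of regular Fréchet-Lie groups
-/

set_option autoImplicit false
set_option linter.unusedSectionVars false

namespace Pool.Agent.Lib.MP_862e0f_al

open Filter Topology Set unitInterval

universe u v w x y z

section model

variable {E : Type} [NormedAddCommGroup E] [NormedSpace ℝ E] [FiniteDimensional ℝ E]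
  {H : Type u} [Group H] [TopologicalSpace H] [T2Space H] [ChartedSpace E H]

/-- finite-dimensional normed spaces are sequentially complete -/
private theorem mainSeqComplete (a : ℕ → E)
    (ha : ∀ W ∈ 𝓝 (0 : E), ∃ N : ℕ, ∀ m ≥ N, ∀ n ≥ N, a m - a n ∈ W) :
    ∃ b, Tendsto a atTop (𝓝 b) := by
  have : CompleteSpace E := FiniteDimensional.complete ℝ E
  refine cauchySeq_tendsto_of_complete (Metric.cauchySeq_iff.2 fun ε hε => ?_)
  obtain ⟨N, hN⟩ := ha _ (Metric.ball_mem_nhds (0 : E) hε)
  refine ⟨N, fun m hm n hn => ?_⟩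
  have h := hN m hm n hn
  rw [mem_ball_zero_iff] at h
  rwa [dist_eq_norm]

/-- For a closed subgroup `L` and `c ∉ L` there are a regular Fréchet-Lie group `K` and two smooth
homomorphisms `H → K` which agree on `L` and differ at `c⁻¹`. -/
theorem exists_separating (hH : IsLieGroup E H) (L : Subgroup H) (hL : IsClosed (L : Set H))
    {c : H} (hc : c ∉ L) : ∃ K : LieGrp.{u, u}, K.IsFrechet ∧ K.IsRegular ∧
      ∃ g₁ g₂ : H →* K.carrier, SmoothMap E K.model g₁ ∧ SmoothMap E K.model g₂ ∧
        (∀ l ∈ L, g₁ l = g₂ l) ∧ g₁ c⁻¹ ≠ g₂ c⁻¹ := by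
  obtain ⟨f, hf, hc'⟩ := exists_invariant_jet hH L hL hc
  have hact := jetAct_smooth hH
  refine ⟨sdLie hH hact, SD.isFrechet hH hact (jet_metrizable hH) (jet_seqComplete hH)
    inferInstance mainSeqComplete, (SD.isRegular hH hact (jet_hasAnti hH) (hasEvol hH)).isRegular,
    SD.inr (jetAct hH), SD.twist (jetAct hH) f, SD.inr_smooth hH hact,
    SD.twist_smooth hH hact f, ?_, ?_⟩
  · intro l hl
    refine Prod.ext ?_ rfl
    change (0 : Jet hH) = f - jetAct hH l f
    rw [hf l hl, sub_self]
  · intro h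
    have h2 : (0 : Jet hH) = f - jetAct hH c⁻¹ f := congrArg Prod.fst h
    exact hc' (sub_eq_zero.mp h2.symm).symm

end model

/-- Let `H` be a finite-dimensional Lie group and `f : G → H` a homomorphism of Lie groups which is
an epimorphism with respect to regular Fréchet-Lie groups. Then `f` has dense range. -/
theorem denseRange_of_isEpi_regular {G H : LieGrp.{u, v}} (hH : H.IsFiniteDim)
    (f : G.carrier →* H.carrier)
    (hf : IsEpi (fun K : LieGrp.{u, u} => K.IsFrechet ∧ K.IsRegular) f) : DenseRange f := by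
  by_contra hn
  -- the closure of the range
  have hT : IsTopologicalGroup H.carrier := H.lie.isTopologicalGroup
  let L : Subgroup H.carrier := f.range.topologicalClosure
  have hL : IsClosed (L : Set H.carrier) := f.range.isClosed_topologicalClosure
  have hc : ∃ c : H.carrier, c ∉ L := by
    by_contra h
    push Not at h
    refine hn fun x => ?_
    exact h x
  obtain ⟨c, hc⟩ := hc
  have hfd : FiniteDimensional ℝ H.model := hH
  let n := Module.finrank ℝ H.model
  obtain ⟨e⟩ : Nonempty (H.model ≃L[ℝ] (Fin n → ℝ)) :=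
    ⟨ContinuousLinearEquiv.ofFinrankEq (Module.finrank_fin_fun ℝ).symm⟩
  let _ : ChartedSpace (Fin n → ℝ) H.carrier := chartedTrans H.carrier e
  have hH' : IsLieGroup (Fin n → ℝ) H.carrier := isLieGroup_trans H.lie e
  obtain ⟨K, hK1, hK2, g₁, g₂, h₁, h₂, hg, hne⟩ := exists_separating hH' L hL hc
  refine hne (DFunLike.congr_fun (hf K ⟨hK1, hK2⟩ g₁ g₂ ⟨smoothMap_trans e h₁⟩
    ⟨smoothMap_trans e h₂⟩ ?_) c⁻¹)
  ext x
  exact hg _ (f.range.le_topologicalClosure ⟨x, rfl⟩)

end Pool.Agent.Lib.MP_862e0f_al
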